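import Mathlib

namespace Pool.Agent.Results.MP_09543b_pr.Line
open Finset

/-- The automaton distributional map `Ψ_{A,χ}`. -/
noncomputable def Psi {S : Type} [Fintype S] [DecidableEq S] (A : (S → ℕ) → S) (χ : ℕ → ℝ)
    (x : S → ℝ) (σ : S) : ℝ :=
  ∑' m, χ m * ∑ n ∈ (univ.piAntidiag m).filter (fun n => A n = σ),
    ((m.factorial : ℝ) / ∏ τ, ((n τ).factorial : ℝ)) * ∏ τ, x τ ^ n τ

def A (n : Fin 3 → ℕ) : Fin 3 := if n 2 = 1 then if n 0 = 1 then 0 else 1 else 2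

theorem result : ∃ (S : Type) (_ : Fintype S) (_ : DecidableEq S) (A : (S → ℕ) → S) (χ : ℕ → ℝ),
    3 ≤ Fintype.card S ∧ (∀ m, 0 ≤ χ m) ∧ HasSum χ 1 ∧ 0 < χ 0 ∧ 0 < χ 2 ∧
    {x ∈ stdSimplex ℝ S | Psi A χ x = x}.Infinite := by
  have hs : ∀ f : ℕ → ℝ, HasSum (fun m => (if m = 0 then 1 / 4 else if m = 2 then 3 / 4 else 0) * f m)
      (1 / 4 * f 0 + 3 / 4 * f 2) := fun f => by
    convert hasSum_sum_of_ne_finset_zero (s := {0, 2}) (L := SummationFilter.unconditional ℕ)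
      (f := fun m => (if m = 0 then 1 / 4 else if m = 2 then 3 / 4 else 0) * f m)
      (by simp +contextual) using 1
    simp
  refine ⟨Fin 3, inferInstance, inferInstance, A,
    fun m => if m = 0 then 1 / 4 else if m = 2 then 3 / 4 else 0, by simp,
    fun m => by positivity, by simpa [show (4⁻¹ + 3 / 4 : ℝ) = 1 by norm_num] using hs 1,
    by norm_num, by norm_num, ?_⟩
  refine ((Set.Icc_infinite (show (0 : ℝ) < 1 / 3 by norm_num)).image
    (f := fun t => ![t, 1 / 3 - t, 2 / 3]) fun a _ b _ h => by simpa using congrFun h 0).mono ?_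
  rintro _ ⟨t, ⟨h0, h1⟩, rfl⟩
  refine ⟨⟨fun i => by fin_cases i <;> simp <;> linarith, by simp [Fin.sum_univ_three]; norm_num⟩, ?_⟩
  have p0 : (univ : Finset (Fin 3)).piAntidiag 0 = {![0, 0, 0]} := by decide +kernel
  have p2 : (univ : Finset (Fin 3)).piAntidiag 2 =
      {![2, 0, 0], ![0, 2, 0], ![0, 0, 2], ![1, 1, 0], ![1, 0, 1], ![0, 1, 1]} := by decide +kernel
  funext σ
  rw [Psi, (hs _).tsum_eq, p0, p2, sum_filter, sum_filter]
  repeat rw [sum_insert (by decide)]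
  fin_cases σ <;> simp [A, Fin.prod_univ_three] <;> ring

end Pool.Agent.Results.MP_09543b_pr.Line
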